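import Pool.Agent.helper78.WB.SpecIII

/-!
# Row HGT of project wb (MP_bb5cc8_nt): height of a form with many points
-/

set_option autoImplicit false

namespace Pool.Agent.WB

open MvPolynomial

namespace HGTaux

/-- monomials of degree `d` -/
abbrev Mon (d : ℕ) : Type := {μ : Fin 3 →₀ ℕ // μ.degree = d}

/-- the values of the monomials -/
def w (d : ℕ) (ζ : V3) : Mon d → ℤ := fun μ => ∏ i, ζ i ^ μ.1 i

lemma w_le {d N : ℕ} {ζ : V3} (h : ∀ i, |ζ i| ≤ (N : ℤ)) (μ : Mon d) :
    |w d ζ μ| ≤ (N : ℤ) ^ d := by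
  have hd : ∑ i, μ.1 i = d := by
    have := μ.2
    rw [Finsupp.degree_eq_sum] at this
    exact this
  unfold w
  rw [Finset.abs_prod]
  calc ∏ i, |ζ i ^ μ.1 i| ≤ ∏ i, (N : ℤ) ^ μ.1 i := by
        refine Finset.prod_le_prod (fun i _ => abs_nonneg _) (fun i _ => ?_)
        rw [abs_pow]
        exact pow_le_pow_left₀ (abs_nonneg _) (h i) _
    _ = (N : ℤ) ^ d := by rw [Finset.prod_pow_eq_pow_sum, hd]

/-- the form with given coefficients -/
noncomputable def Q {d : ℕ} [Fintype (Mon d)] (t : Mon d → ℤ) : MvPolynomial (Fin 3) ℤ :=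
  ∑ μ : Mon d, monomial μ.1 (t μ)

lemma Q_hom {d : ℕ} [Fintype (Mon d)] (t : Mon d → ℤ) : (Q t).IsHomogeneous d := by
  unfold Q
  refine IsHomogeneous.sum _ _ _ (fun μ _ => ?_)
  exact isHomogeneous_monomial _ μ.2

lemma coeff_Q {d : ℕ} [Fintype (Mon d)] (t : Mon d → ℤ) (μ : Mon d) :
    coeff μ.1 (Q t) = t μ := by
  classical
  unfold Q
  rw [coeff_sum, Finset.sum_eq_single μ]
  · simp
  · intro ν _ hν
    rw [coeff_monomial, if_neg]
    intro h
    exact hν (Subtype.ext h)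
  · intro h
    exact absurd (Finset.mem_univ _) h

lemma coeff_off {d : ℕ} {p : MvPolynomial (Fin 3) ℤ} (hp : p.IsHomogeneous d)
    {μ : Fin 3 →₀ ℕ} (hμ : μ.degree ≠ d) : coeff μ p = 0 := by
  by_contra h
  have := hp h
  apply hμ
  rw [← this, Finsupp.degree_eq_weight_one]
  rfl

lemma Q_coeff {d : ℕ} [Fintype (Mon d)] {p : MvPolynomial (Fin 3) ℤ} (hp : p.IsHomogeneous d) :
    Q (fun μ : Mon d => coeff μ.1 p) = p := by
  ext μ
  by_cases h : μ.degree = d
  · exact coeff_Q (fun μ : Mon d => coeff μ.1 p) ⟨μ, h⟩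
  · rw [coeff_off hp h, coeff_off (Q_hom _) h]

lemma eval_Q {d : ℕ} [Fintype (Mon d)] (t : Mon d → ℤ) (ζ : V3) :
    eval ζ (Q t) = ∑ μ, t μ * w d ζ μ := by
  unfold Q w
  rw [map_sum]
  refine Finset.sum_congr rfl (fun μ _ => ?_)
  rw [eval_monomial, Finsupp.prod_fintype _ _ (fun i => pow_zero _)]

section
attribute [local instance] Matrix.seminormedAddCommGroup

lemma siegel {α β : Type} [Fintype α] [Fintype β] (A : Matrix α β ℤ) (n N d : ℕ) (hN : 1 ≤ N)
    (hn : Fintype.card β = n) (hlt : Fintype.card α < Fintype.card β) (hpos : 0 < Fintype.card α)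
    (hA : ∀ i j, |A i j| ≤ (N : ℤ) ^ d) :
    ∃ t : β → ℤ, t ≠ 0 ∧ (∀ k : α, ∑ μ, A k μ * t μ = 0) ∧
      ∀ μ, ((|t μ| : ℤ) : ℝ) ≤ ((n : ℝ) * (N : ℝ) ^ d) ^ n := by
  obtain ⟨t, ht, hAt, hnorm⟩ := Int.Matrix.exists_ne_zero_int_vec_norm_le A hlt hpos
  refine ⟨t, ht, fun k => ?_, fun μ => ?_⟩
  · have := congrFun hAt k
    simpa [Matrix.mulVec, dotProduct] using this
  · have h1 : (1 : ℝ) ≤ (N : ℝ) ^ d := one_le_pow₀ (by exact_mod_cast hN)
    have hAn : ‖A‖ ≤ (N : ℝ) ^ d := by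
      rw [Matrix.norm_le_iff (by positivity)]
      intro i j
      rw [Int.norm_eq_abs]
      exact_mod_cast hA i j
    have hn1 : (1 : ℝ) ≤ n := by
      have : 1 ≤ n := by omega
      exact_mod_cast this
    have hmax : max 1 ‖A‖ ≤ (N : ℝ) ^ d := max_le h1 hAn
    have hbase : (1 : ℝ) ≤ (n : ℝ) * (N : ℝ) ^ d := by nlinarith
    have hμ : ((|t μ| : ℤ) : ℝ) ≤ ‖t‖ := by
      have := norm_le_pi_norm t μ
      rwa [Int.norm_eq_abs, ← Int.cast_abs] at this
    refine hμ.trans (hnorm.trans ?_)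
    rw [hn]
    have hk : (Fintype.card α : ℝ) + 1 ≤ n := by
      have : Fintype.card α + 1 ≤ n := by omega
      exact_mod_cast this
    have hexp : (Fintype.card α : ℝ) / ((n : ℝ) - Fintype.card α) ≤ n := by
      rw [div_le_iff₀ (by linarith)]
      have h0 : (0 : ℝ) ≤ Fintype.card α := Nat.cast_nonneg _
      nlinarith
    calc ((n : ℝ) * max 1 ‖A‖) ^ ((Fintype.card α : ℝ) / ((n : ℝ) - Fintype.card α))
        ≤ ((n : ℝ) * (N : ℝ) ^ d) ^ ((Fintype.card α : ℝ) / ((n : ℝ) - Fintype.card α)) := by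
          apply Real.rpow_le_rpow
          · have : (0 : ℝ) ≤ max 1 ‖A‖ := le_trans zero_le_one (le_max_left _ _)
            positivity
          · exact mul_le_mul_of_nonneg_left hmax (by linarith)
          · exact div_nonneg (Nat.cast_nonneg _) (by linarith)
      _ ≤ ((n : ℝ) * (N : ℝ) ^ d) ^ (n : ℝ) := Real.rpow_le_rpow_of_exponent_le hbase hexp
      _ = ((n : ℝ) * (N : ℝ) ^ d) ^ n := Real.rpow_natCast _ _

end

end HGTaux

open HGTaux

theorem HGT (h1 : DIM3_stmt) (h2 : BZ_stmt) (h3 : HQ_stmt) : HGT_stmt := by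
  intro N d p hN hirr hp hd S hNP hS hcard
  classical
  have hs3 : 0 < s3 d := by
    unfold s3
    have : 2 ≤ (d + 1) * (d + 2) := by nlinarith
    exact Nat.div_pos this (by norm_num)
  have hc := h1.1 d
  have : Finite (Mon d) := Nat.finite_of_card_ne_zero (by
    have : Nat.card (Mon d) = s3 d := hc
    omega)
  have : Fintype (Mon d) := Fintype.ofFinite _
  have hcM : Fintype.card (Mon d) = s3 d := by rw [← Nat.card_eq_fintype_card]; exact hc
  -- the vectors
  let v : S → (Mon d → ℚ) := fun ζ μ => ((w d ζ.1 μ : ℤ) : ℚ)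
  obtain ⟨κ, a, ha, hspan, hli⟩ := exists_linearIndependent' ℚ v
  have : Finite κ := Finite.of_injective a ha
  have : Fintype κ := Fintype.ofFinite _
  -- vanishing on the span
  have hvan : ∀ (t : Mon d → ℤ) (W : Set (Mon d → ℚ)),
      (∀ x ∈ W, ∑ μ, (t μ : ℚ) * x μ = 0) → ∀ x ∈ Submodule.span ℚ W, ∑ μ, (t μ : ℚ) * x μ = 0 := by
    intro t W hW x hx
    induction hx using Submodule.span_induction with
    | mem x hx => exact hW x hx
    | zero => simp
    | add x y _ _ hx hy =>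
      simp only [Pi.add_apply, mul_add, Finset.sum_add_distrib, hx, hy, add_zero]
    | smul c x _ hx =>
      have : ∑ μ, (t μ : ℚ) * (c • x) μ = c * ∑ μ, (t μ : ℚ) * x μ := by
        rw [Finset.mul_sum]
        refine Finset.sum_congr rfl (fun μ _ => ?_)
        simp only [Pi.smul_apply, smul_eq_mul]
        ring
      rw [this, hx, mul_zero]
  have hval : ∀ (t : Mon d → ℤ) (ζ : S), ((eval ζ.1 (Q t) : ℤ) : ℚ) = ∑ μ, (t μ : ℚ) * v ζ μ := by
    intro t ζ
    rw [eval_Q]
    push_cast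
    rfl
  have hp0 : p ≠ 0 := hirr.ne_zero
  have hlt : Fintype.card κ < Fintype.card (Mon d) := by
    have hle : Fintype.card κ ≤ Fintype.card (Mon d) := by
      have := hli.fintype_card_le_finrank
      rwa [Module.finrank_fintype_fun_eq_card] at this
    rcases Nat.lt_or_ge (Fintype.card κ) (Fintype.card (Mon d)) with h | h
    · exact h
    exfalso
    have htop : Submodule.span ℚ (Set.range (v ∘ a)) = ⊤ := by
      apply hli.span_eq_top_of_card_eq_finrank'
      rw [Module.finrank_fintype_fun_eq_card]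
      omega
    apply hp0
    rw [← Q_coeff hp]
    have hz : (fun μ : Mon d => coeff μ.1 p) = 0 := by
      funext ν
      have hx := hvan (fun μ : Mon d => coeff μ.1 p) (Set.range (v ∘ a)) (by
        rintro x ⟨k, rfl⟩
        have := hval (fun μ : Mon d => coeff μ.1 p) (a k)
        rw [Q_coeff hp, (hS _ (a k).2).2.2] at this
        simp only [Function.comp_apply]
        rw [← this]
        simp) (Pi.single ν 1) (by rw [htop]; exact Submodule.mem_top)
      rw [Finset.sum_eq_single ν] at hx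
      · simpa using hx
      · intro b _ hb
        simp [Pi.single_eq_of_ne hb]
      · intro h
        exact absurd (Finset.mem_univ _) h
    rw [hz]
    unfold Q
    simp
  have hpos : 0 < Fintype.card κ := by
    rw [Fintype.card_pos_iff]
    by_contra hne
    have : IsEmpty κ := not_nonempty_iff.mp hne
    have hSne : S.Nonempty := by
      rw [← Finset.card_pos]; omega
    obtain ⟨ζ, hζ⟩ := hSne
    have hv0 : v ⟨ζ, hζ⟩ ∈ Submodule.span ℚ (Set.range v) :=
      Submodule.subset_span ⟨_, rfl⟩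
    rw [← hspan, Set.range_eq_empty, Submodule.span_empty, Submodule.mem_bot] at hv0
    apply (hS ζ hζ).1
    funext i
    have hdeg : (Finsupp.single i d : Fin 3 →₀ ℕ).degree = d := by
      simp
    have := congrFun hv0 ⟨Finsupp.single i d, hdeg⟩
    simp only [v, w, Pi.zero_apply, Int.cast_eq_zero, Finset.prod_eq_zero_iff, Finset.mem_univ,
      true_and] at this
    obtain ⟨j, hj⟩ := this
    by_cases hij : j = i
    · subst hij
      exact eq_zero_of_pow_eq_zero hj
    · rw [Finsupp.single_eq_of_ne hij, pow_zero] at hj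
      exact absurd hj one_ne_zero
  -- Siegel
  obtain ⟨t, ht0, htA, htn⟩ : ∃ t : Mon d → ℤ, t ≠ 0 ∧ (∀ k : κ, ∑ μ, w d (a k).1 μ * t μ = 0) ∧
      ∀ μ, ((|t μ| : ℤ) : ℝ) ≤ ((s3 d : ℝ) * (N : ℝ) ^ d) ^ (s3 d) :=
    siegel (fun (k : κ) (μ : Mon d) => w d (a k).1 μ) (s3 d) N d hN hcM hlt hpos
      (fun k μ => w_le (hS _ (a k).2).2.1 μ)
  have hQ0 : Q t ≠ 0 := by
    intro h
    apply ht0
    funext μ
    rw [← coeff_Q t μ, h]
    simp
  have hQS : ∀ ζ ∈ S, eval ζ (Q t) = 0 := by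
    intro ζ hζ
    have hv := hval t ⟨ζ, hζ⟩
    have hx := hvan t (Set.range (v ∘ a)) (by
        rintro x ⟨k, rfl⟩
        have hk := htA k
        have : ((∑ μ, w d (a k).1 μ * t μ : ℤ) : ℚ) = 0 := by rw [hk]; simp
        push_cast at this
        rw [← this]
        refine Finset.sum_congr rfl (fun μ _ => ?_)
        simp only [Function.comp_apply, v]
        ring) (v ⟨ζ, hζ⟩) (by rw [hspan]; exact Submodule.subset_span ⟨_, rfl⟩)
    rw [hx] at hv
    exact_mod_cast hv
  have hdvd : p ∣ Q t := by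
    by_contra hnd
    have := h2 p (Q t) d d hirr hp hd (Q_hom t) hnd S hNP
      (fun ζ hζ => ⟨(hS ζ hζ).1, (hS ζ hζ).2.2, hQS ζ hζ⟩)
    omega
  obtain ⟨-, r, hr, hQr⟩ := h3 ℤ p (Q t) d d hp hp0 (Q_hom t) hQ0 hdvd
  rw [Nat.sub_self] at hr
  have hrC : r = C (coeff 0 r) := by
    have : r.totalDegree = 0 := by
      have := hr.totalDegree_le
      omega
    exact totalDegree_eq_zero_iff_eq_C.mp this
  have hc0 : coeff 0 r ≠ 0 := by
    intro h
    apply hQ0
    rw [hQr, hrC, h]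
    simp
  intro μ
  by_cases hμ : μ.degree = d
  · have hco : coeff μ (Q t) = coeff μ p * coeff 0 r := by
      rw [hQr]
      conv_lhs => rw [hrC]
      rw [mul_comm, coeff_C_mul, mul_comm]
    have h5 : |coeff μ p| ≤ |t ⟨μ, hμ⟩| := by
      rw [← coeff_Q t ⟨μ, hμ⟩]
      show |coeff μ p| ≤ |coeff μ (Q t)|
      rw [hco, abs_mul]
      have : 1 ≤ |coeff 0 r| := Int.one_le_abs hc0
      nlinarith [abs_nonneg (coeff μ p)]
    have h6 := htn ⟨μ, hμ⟩
    refine h5.trans ?_
    have : ((|t ⟨μ, hμ⟩| : ℤ) : ℝ) ≤ (((((s3 d * N ^ d) ^ s3 d : ℕ) : ℤ)) : ℝ) := by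
      push_cast
      push_cast at h6
      exact h6
    exact_mod_cast this
  · rw [coeff_off hp hμ, abs_zero]
    exact Int.natCast_nonneg _

end Pool.Agent.WB
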